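import Pool.Agent.K3h5.FF.Stm

set_option autoImplicit false

open Pool.Agent.K3h5.FF Equiv Equiv.Perm

namespace Pool.Agent.K3h45.FF

theorem cyc_eq {n : ℕ} (π : Perm (Fin n)) :
    cyc π + π.support.card = Multiset.card π.cycleType + n := by
  have h : π.support.card ≤ n := by
    simpa using Finset.card_le_univ π.support
  simp only [cyc, parts_partition, Multiset.card_add, Multiset.card_replicate, Fintype.card_fin]
  omega

theorem swap_step {n : ℕ} (π : Perm (Fin n)) (p : Fin n) (h : π p ≠ p) :
    cyc (swap p (π p) * π) = cyc π + 1 := by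
  classical
  have hmem : π.cycleOf p ∈ π.cycleFactorsFinset :=
    cycleOf_mem_cycleFactorsFinset_iff.2 (mem_support.2 h)
  have hcyc : (π.cycleOf p).IsCycle := isCycle_cycleOf π h
  have hcp : (π.cycleOf p) p = π p := cycleOf_apply_self π p
  generalize π.cycleOf p = c at hmem hcyc hcp
  have hcom : Commute c π := self_mem_cycle_factors_commute hmem
  have hdis : Disjoint c (π * c⁻¹) := (disjoint_mul_inv_of_mem_cycleFactorsFinset hmem).symm
  have hπ : π = c * (π * c⁻¹) := by
    rw [← mul_assoc, hcom.eq, mul_assoc, mul_inv_cancel, mul_one]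
  generalize π * c⁻¹ = ρ at hdis hπ
  have hsub : (swap p (c p) * c).support ⊆ c.support := fun y hy =>
    (mem_support_swap_mul_imp_mem_support_ne hy).1
  have hdis' : Disjoint (swap p (c p) * c) ρ := by
    rw [disjoint_iff_disjoint_support] at hdis ⊢
    exact hdis.mono_left hsub
  have hσ : swap p (π p) * π = (swap p (c p) * c) * ρ := by
    rw [mul_assoc, ← hπ, hcp]
  have e1 := cyc_eq π
  have e2 := cyc_eq (swap p (π p) * π)
  rw [hσ, hdis'.cycleType_mul, hdis'.card_support_mul, Multiset.card_add] at e2
  rw [hσ]
  have e3 : π.support.card = c.support.card + ρ.support.card := by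
    conv_lhs => rw [hπ]
    exact hdis.card_support_mul
  have e4 : π.cycleType = c.cycleType + ρ.cycleType := by
    conv_lhs => rw [hπ]
    exact hdis.cycleType_mul
  rw [e3, e4, Multiset.card_add, hcyc.cycleType, Multiset.card_singleton] at e1
  have hcp' : c p ≠ p := by rw [hcp]; exact h
  by_cases h2 : c (c p) = p
  · have e5 : c = swap p (c p) := hcyc.eq_swap_of_apply_apply_eq_self hcp' h2
    have e6 : swap p (c p) * c = 1 := by
      conv_lhs => rw [e5]
      simp
    have e7 : c.support.card = 2 := by
      rw [e5]; exact card_support_swap hcp'.symm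
    rw [e6] at e2 ⊢
    simp only [cycleType_one, support_one, Finset.card_empty, Multiset.card_zero] at e2
    omega
  · have e5 : (swap p (c p) * c).IsCycle := hcyc.swap_mul hcp' h2
    have e6 : (swap p (c p) * c).support.card + 1 = c.support.card := by
      rw [support_swap_mul_eq c p h2, Finset.sdiff_singleton_eq_erase]
      exact Finset.card_erase_add_one (mem_support.2 hcp')
    rw [e5.cycleType, Multiset.card_singleton] at e2
    omega

theorem swap_refl {n : ℕ} (π : Perm (Fin n)) (x : Fin n) : swap x x * π = π := by
  ext z; simp

theorem swap_two {n : ℕ} : ∀ (k : ℕ) (π : Perm (Fin n)), π.support.card ≤ k → ∀ x y : Fin n,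
    cyc (swap x y * π) ≤ cyc π + 1 ∧ cyc π ≤ cyc (swap x y * π) + 1 := by
  intro k
  induction k with
  | zero =>
    intro π hπ x y
    by_cases hxy : x = y
    · subst hxy; rw [swap_refl]; omega
    · have h1 : π = 1 := by
        rw [← support_eq_empty_iff, ← Finset.card_eq_zero]; omega
      subst h1
      have := swap_step (swap x y * 1) x (by simp [Ne.symm hxy])
      simp at this ⊢
      omega
  | succ k ih =>
    intro π hπ x y
    by_cases hxy : x = y
    · subst hxy; rw [swap_refl]; omega
    by_cases h1 : π y = y
    · have := swap_step (swap x y * π) y (by simp [h1, hxy])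
      simp only [mul_apply, h1, swap_apply_right] at this
      rw [swap_comm y x, swap_mul_self_mul] at this
      omega
    by_cases h2 : π y = x
    · have := swap_step π y h1
      rw [h2, swap_comm y x] at this
      omega
    · have a1 := swap_step π y h1
      have a2 := swap_step (swap x y * π) y (by
        rw [mul_apply, swap_apply_of_ne_of_ne h2 h1]; exact h1)
      rw [mul_apply, swap_apply_of_ne_of_ne h2 h1] at a2
      have hlt : (swap y (π y) * π).support.card ≤ k := by
        have := card_support_swap_mul h1
        omega
      have a3 := ih (swap y (π y) * π) hlt x (π y)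
      have a4 : swap x (π y) * (swap y (π y) * π) = swap y (π y) * (swap x y * π) := by
        rw [← mul_assoc, ← mul_assoc]
        congr 1
        rw [mul_swap_eq_swap_mul (swap y (π y)) x y, swap_apply_left,
          swap_apply_of_ne_of_ne hxy (Ne.symm h2)]
      rw [a4] at a3
      omega

/-- CYC -/
theorem t_CYC : S_CYC := by
  intro n π
  refine ⟨?_, ?_⟩
  · intro p a h ha
    subst h
    exact swap_step π p ha
  · intro x y
    have := swap_two _ π le_rfl x y
    omega

end Pool.Agent.K3h45.FF
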